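import Pool.Graph.R_pool_sql_team_39128cda.H.MP_9f272e_an.C

/-! Exceptional sets of radial limits of almost full measure: the construction in dimension two. -/

set_option autoImplicit false

open Set Metric Filter Topology Complex MeasureTheory
open scoped ComplexConjugate Real CompactlySupported Pointwise

namespace Pool.Agent.KS6_84.RLim

open Pool.Agent.H.MP_9f272e_an

/-- Harnack inequality with the sharp constant. -/
lemma har' {H : ℂ → ℂ} {y b : ℂ} {R s : ℝ} (d : DifferentiableOn ℂ H (ball y R))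
    (p : ∀ z ∈ ball y R, 0 ≤ (H z).re)
    (R0 : 0 < R) (s0 : 0 ≤ s) (s1 : s < 1) (k : ‖b - y‖ = s * R) :
    (1 - s) * (H b).re ≤ (1 + s) * (H y).re := le_of_forall_pos_le_add fun η η0 => by
  have mt : MapsTo (y + ·) (ball 0 R) (ball y R) := fun z k => by simpa using k
  have := p y (mem_ball_self R0)
  have sR : s * R < R := by nlinarith
  have := (re_le_norm _).trans ((norm_neg _).trans_le (borelCaratheodory_zero (f := fun z => H y - H (y + z))
    (M := (H y).re + η / 2) (by positivity) ((d.comp (by fun_prop) mt).const_sub _) (fun z k => by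
      simp only [mem_ofPred_eq, sub_re]; linarith [p _ (mt k)]) R0 (z := b - y) (by
        rw [mem_ball_zero_iff]; linarith) (by simp)))
  rw [k, le_div_iff₀ (by linarith)] at this
  simp only [add_sub_cancel, neg_re, sub_re] at this
  have h1 : ((H b).re - (H y).re) * (1 - s) ≤ 2 * ((H y).re + η / 2) * s := by
    refine le_of_mul_le_mul_right ?_ R0
    nlinarith
  nlinarith

lemma rep' {K : Set E} (hK : IsClosed K) {κ : ℝ} (H : ∀ h : E → ℂ, DiffContOnCl ℂ h (ball 0 1) → ∀ s, 0 ≤ s →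
    (∀ x, ‖x‖ = 1 → 0 ≤ (h x).re) → (∀ x ∈ K, ‖x‖ = 1 → s ≤ (h x).re) → κ * s ≤ (h 0).re) :
    ∃ μ : Measure E, IsFiniteMeasure μ ∧ μ (sphere 0 1)ᶜ = 0 ∧ (∀ g : E → ℂ, ContinuousOn g (closedBall 0 1) →
      DifferentiableOn ℂ g (ball 0 1) → ∫ z, g z ∂μ = g 0) ∧ ENNReal.ofReal κ ≤ μ (sphere 0 1 ∩ K) := by
  obtain ⟨Λ, up⟩ := hb {p | ∃ h : E → ℂ, DiffContOnCl ℂ h (ball 0 1) ∧
    p = (fun x : sphere (0 : E) 1 => (h x).re, (h 0).re)} (by
      rintro _ ⟨h, d, rfl⟩ _ ⟨h', d', rfl⟩; exact ⟨_, d.add d', rfl⟩) (by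
        rintro a _ ⟨h, d, rfl⟩; exact ⟨_, d.const_smul (a : ℂ), by ext <;> simp⟩)
    (fun M => ⟨fun _ => M, diffContOnCl_const, rfl⟩) (K := (↑) ⁻¹' K) (κ := κ) (by
      rintro _ ⟨h, d, rfl⟩ s s0 a b
      exact H h d s s0 (fun x q => a ⟨x, by simpa⟩) fun x p q => b ⟨x, by simpa⟩ p)
  replace up u s s0 h d := up u s s0 _ ⟨h, d, rfl⟩
  let L := PositiveLinearMap.mk₀ Λ fun u k => by
    simpa using up (-u) 0 le_rfl 0 diffContOnCl_const (fun x => by simpa using k x) fun x _ => by simpa using k x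
  have me := MeasurableEmbedding.subtype_coe (isClosed_sphere (x := (0 : E)) (ε := 1)).measurableSet
  have sb : sphere (0 : E) 1 ⊆ closure (ball 0 1) := closure_ball (0 : E) one_ne_zero ▸ sphere_subset_closedBall
  have cg {h : E → ℂ} (d : DiffContOnCl ℂ h (ball 0 1)) : Continuous fun x : sphere (0 : E) 1 => h x :=
    (d.2.mono sb).domRestrict
  have re {h : E → ℂ} (d : DiffContOnCl ℂ h (ball 0 1)) : ∫ x : sphere (0 : E) 1, (h x).re ∂(RealRMK.rieszMeasure L) = (h 0).re := by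
    let u : C_c(sphere (0 : E) 1, ℝ) := ⟨⟨_, continuous_re.comp (cg d)⟩, HasCompactSupport.of_compactSpace _⟩
    refine (RealRMK.integral_rieszMeasure L u).trans (le_antisymm (a := Λ u) ?_ ?_)
    · simpa using up u 0 le_rfl h d (fun x => le_rfl) fun x _ => (add_zero _).le
    · simpa using up (-u) 0 le_rfl _ d.neg (fun x => le_rfl) fun x _ => (add_zero _).le
  refine ⟨(RealRMK.rieszMeasure L).map (↑), inferInstance, by simp [me.map_apply], fun g c d => ?_, ?_⟩
  · have d : DiffContOnCl ℂ g (ball 0 1) := ⟨d, by rwa [closure_ball _ one_ne_zero]⟩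
    have i := (cg d).integrable_of_hasCompactSupport (μ := RealRMK.rieszMeasure L) (HasCompactSupport.of_compactSpace _)
    rw [me.integral_map]
    refine Complex.ext ((integral_re i).symm.trans (re d)) ((integral_im i).symm.trans ?_)
    simpa using re (d.const_smul (-I))
  rw [me.map_apply, Subtype.preimage_coe_self_inter, (hK.preimage continuous_subtype_val).isCompact.measure_eq_biInf_integral_hasCompactSupport]
  refine le_iInf₂ fun f c => le_iInf₂ fun a b => le_iInf fun p =>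
    ENNReal.ofReal_le_ofReal (le_of_le_of_eq (b := Λ ⟨⟨f, c⟩, a⟩) ?_ (RealRMK.integral_rieszMeasure L ⟨⟨f, c⟩, a⟩).symm)
  simpa using up (-⟨⟨f, c⟩, a⟩) 1 zero_le_one 0 diffContOnCl_const (fun x => by simpa using p x) fun x q => by
    simp [b q]

/-- Stage `n` of the construction: the constant in the lower bound is `b + e / 2 ^ n`. -/
def G (b e : ℝ) (n : ℕ) (s : Finset (ℂ × ℂ) × (E → ℂ) × Set E × ℝ) : Prop :=
  (∀ ρ, St s.1 ∅ s.2.1 (c / 8 * (2 - (1 / 2) ^ n)) (b + e * (1 / 2) ^ n) 1 ρ s.2.2.1) ∧ IsCompact s.2.2.1 ∧ s.2.2.2 < 1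

def T (n : ℕ) (s t : Finset (ℂ × ℂ) × (E → ℂ) × Set E × ℝ) : Prop :=
  t.2.2.1 ⊆ s.2.2.1 ∧ s.2.2.2 ≤ t.2.2.2 ∧ 1 - (1 / 2) ^ n ≤ t.2.2.2 ∧
    (∀ x, ‖x‖ ≤ s.2.2.2 → ‖t.2.1 x - s.2.1 x‖ ≤ c / 16 * (1 / 2) ^ n) ∧ ∀ x ∈ t.2.2.1, ‖x‖ = 1 →
      (∃ r ∈ Icc (1 - (1 / 2) ^ n) t.2.2.2, 3 / 4 * c < ‖t.2.1 ((r : ℂ) • x)‖) ∧
        ∃ r ∈ Icc (1 - (1 / 2) ^ n) t.2.2.2, ‖t.2.1 ((r : ℂ) • x)‖ < c / 4

lemma c0 : 0 < c := by unfold c; positivity

lemma sq {A b e : ℝ} (A1 : 1 < A) (b0 : 0 ≤ b) (e0 : 0 < e) (he : (b + e) * (A + 1) = A - 1) :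
    ∃ s : ℕ → _, ∀ n, G b e n (s n) ∧ T n (s n) (s (n + 1)) := by
  have c0 := c0
  have be : b + e ≤ 1 := by nlinarith
  have st n s (h : G b e n s) : ∃ t, G b e (n + 1) t ∧ T n s t := by
    have a : (0 : ℝ) < (1 / 2) ^ n := by positivity
    have b' : (1 / 2 : ℝ) ^ n ≤ 1 := pow_le_one₀ (by norm_num) (by norm_num)
    obtain ⟨M, hM⟩ := exists_pow_lt_of_lt_one (show 0 < e * (1 / 2 : ℝ) ^ n / 2 by positivity) (show (2 / 3 : ℝ) < 1 by norm_num)
    obtain ⟨C, f, S, k⟩ := iter (h.1 (1 - (1 / 2) ^ n)) (by linarith) (by linarith) h.2.2 M (c / 16 * (1 / 2) ^ n)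
      (by positivity) (by nlinarith)
    obtain ⟨O, R, h1, h2, h3, h4, h5, h6, h7⟩ := swap S (by linarith) (by linarith) h.2.2
      (β' := b + e * (1 / 2) ^ (n + 1)) (by
        have q : (0 : ℝ) < (2 / 3) ^ M := by positivity
        have w : b + e * (1 / 2) ^ n ≤ 1 := by nlinarith
        have w' : 0 ≤ b + e * (1 / 2) ^ n := by positivity
        rw [pow_succ, pow_succ]
        nlinarith [mul_le_mul_of_nonneg_left hM.le w', mul_le_mul_of_nonneg_right w (show 0 ≤ e * (1 / 2 : ℝ) ^ n / 2 by positivity)])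
    refine ⟨(C, f, O, R), ⟨fun ρ => by convert h6 ρ using 1; ring, h1, h5⟩, h2, h3, h4, k, fun x p q => ?_⟩
    obtain ⟨⟨r, u, v⟩, r', u', v'⟩ := h7 x p q
    exact ⟨⟨r, u, lt_of_le_of_lt (by nlinarith) v⟩, r', u', v'.trans_le (by nlinarith)⟩
  choose nx h1 h2 using st
  have A0 : (0 : ℝ) < A := by linarith
  have hV : V ((A : ℂ), 0) = A ^ 2 := by simp [V, abs_of_pos A0]
  have hs : σ ((A : ℂ), 0) = √(A ^ 2 - 1) := by simp [σ, hV]
  have V1 : 1 < V ((A : ℂ), 0) := by rw [hV]; nlinarith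
  have z : G b e 0 ({((A : ℂ), 0)}, 0, closedBall 0 2, 0) := ⟨fun ρ => ⟨by simpa using V1, by simp, fun D _ =>
    mem_nhdsSet_iff_forall.2 fun x a => closedBall_mem_nhds_of_mem (by simp [a.1]), fun x _ => by simp; positivity,
      by simp [c0], ⟨0, one_pos, by simp⟩, 0, one_pos, fun h p a a' _ _ _ k => by
        have m : MapsTo (fun z : ℂ => (!₂[z, 0] : E)) (ball 0 1) (ball 0 1) := fun z k => by
          simpa [EuclideanSpace.norm_eq] using k
        have := har' (H := fun z => h !₂[z, 0]) (y := 0) (b := ((1 / A : ℝ) : ℂ)) (R := 1) (s := 1 / A)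
          (p.1.1.comp ((differentiable_piLp 2).2 fun i => by
          fin_cases i <;> simp).differentiableOn m) (fun z k => p.2 _ (mem_ball_zero_iff.1 (m k)).le) one_pos
            (by positivity) (by rw [div_lt_one A0]; exact A1) (by
              rw [sub_zero, norm_real, Real.norm_of_nonneg (by positivity), mul_one])
        have k := k _ (Finset.mem_singleton_self _) 0 (by simp)
        have e1 : pt ((A : ℂ), 0) 0 = !₂[((1 / A : ℝ) : ℂ), 0] := by
          ext i
          have : (A : ℂ) ≠ 0 := by exact_mod_cast A0.ne'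
          fin_cases i <;> simp [pt, hV]
          field_simp
        rw [e1] at k
        rw [show (!₂[(0 : ℂ), 0] : E) = 0 by ext i; fin_cases i <;> rfl] at this
        have h5 : (A - 1) * (h !₂[((1 / A : ℝ) : ℂ), 0]).re ≤ (A + 1) * (h 0).re := by
          have e2 := mul_le_mul_of_nonneg_left this A0.le
          have e3 : A * ((1 - 1 / A) * (h !₂[((1 / A : ℝ) : ℂ), 0]).re) =
            (A - 1) * (h !₂[((1 / A : ℝ) : ℂ), 0]).re := by field_simp
          have e4 : A * ((1 + 1 / A) * (h 0).re) = (A + 1) * (h 0).re := by field_simp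
          linarith
        have h6 : (A - 1) * a ≤ (A + 1) * (h 0).re :=
          (mul_le_mul_of_nonneg_left k (by linarith)).trans h5
        rw [← he] at h6
        have h7 : (b + e) * a * (A + 1) ≤ (h 0).re * (A + 1) := by linarith
        have h8 := le_of_mul_le_mul_right h7 (by linarith)
        simp only [pow_zero, mul_one, one_mul]
        calc (b + e) * (a' - (a' - a)) = (b + e) * a := by ring
          _ ≤ _ := h8⟩, isCompact_closedBall _ _, one_pos⟩
  let q (n : ℕ) : {s // G b e n s} := Nat.rec ⟨_, z⟩ (fun n s => ⟨nx n s.1 s.2, h1 _ _ _⟩) n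
  exact ⟨fun n => (q n).1, fun n => ⟨(q n).2, h2 _ _ (q n).2⟩⟩

end Pool.Agent.KS6_84.RLim
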