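import Pool.Agent.KS6_84.RLim.A

set_option autoImplicit false

open Set Metric Filter Topology Complex MeasureTheory
open scoped ComplexConjugate Real

namespace Pool.Agent.KS6_84.RLim

open Pool.Agent.H.MP_9f272e_an

/-- Dimension two. -/
theorem two {δ : ℝ} (δ0 : 0 < δ) : ∃ (f : E → ℂ) (K : Set E) (μ : Measure E),
    DifferentiableOn ℂ f (ball 0 1) ∧ (∀ z ∈ ball (0 : E) 1, ‖f z‖ ≤ 3 + c) ∧ IsClosed K ∧
      (∀ ζ ∈ K, ‖ζ‖ = 1 → ∀ R : ℝ, R < 1 → ∃ r ∈ Ioo R 1, ∃ r' ∈ Ioo R 1,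
        ‖f ((r' : ℂ) • ζ)‖ + c / 4 < ‖f ((r : ℂ) • ζ)‖) ∧
      IsFiniteMeasure μ ∧ μ (sphere 0 1)ᶜ = 0 ∧ (∀ g : E → ℂ, ContinuousOn g (closedBall 0 1) →
        DifferentiableOn ℂ g (ball 0 1) → ∫ z, g z ∂μ = g 0) ∧
      ENNReal.ofReal (1 - δ) ≤ μ (sphere 0 1 ∩ K) := by
  wlog δ1 : δ ≤ 1 generalizing δ
  · obtain ⟨f, K, μ, h1, h2, h3, h4, h5, h6, h7, h8⟩ := this one_pos le_rfl
    exact ⟨f, K, μ, h1, h2, h3, h4, h5, h6, h7, (ENNReal.ofReal_le_ofReal (by linarith)).trans h8⟩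
  have c0 := c0
  have hA : 1 < 8 / δ - 1 := by
    have : 8 ≤ 8 / δ := by rw [le_div_iff₀ δ0]; linarith
    linarith
  obtain ⟨s, hs⟩ := sq (A := 8 / δ - 1) (b := 1 - δ / 2) (e := δ / 4) hA (by linarith) (by linarith)
    (by field_simp; ring)
  have mR : Monotone fun n => (s n).2.2.2 := monotone_nat_of_le_succ fun n => (hs n).2.2.1
  have l1 : Tendsto (fun n : ℕ => 1 - (1 / 2 : ℝ) ^ n) atTop (𝓝 1) := by
    simpa using (tendsto_pow_atTop_nhds_zero_of_lt_one (r := (1 / 2 : ℝ)) (by norm_num) (by norm_num)).const_sub 1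
  have eR {r : ℝ} (h : r < 1) : ∃ k, r < (s k).2.2.2 :=
    let ⟨k, a⟩ := (l1.eventually_const_lt h).exists; ⟨_, a.trans_le (hs k).2.2.2.1⟩
  set d := fun n x => (s (n + 1)).2.1 x - (s n).2.1 x with hd
  have db k x (h : ‖x‖ ≤ (s k).2.2.2) j : ‖d (j + k) x‖ ≤ c / 8 / 2 / 2 ^ j :=
    ((hs _).2.2.2.2.1 x (h.trans (mR (k.le_add_left j)))).trans (by
      rw [div_div c, div_eq_mul_one_div _ (2 ^ j), ← one_div_pow, show (8 : ℝ) * 2 = 16 by norm_num]
      exact mul_le_mul_of_nonneg_left (pow_le_pow_of_le_one (by norm_num) (by norm_num) (j.le_add_right k)) (by positivity))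
  have sm k x h := (summable_geometric_two' (c / 8)).of_norm_bounded (db k x h)
  have e k x (h : ‖x‖ ≤ (s k).2.2.2) : (s 0).2.1 x + ∑' n, d n x = (s k).2.1 x + ∑' n, d (n + k) x := by
    rw [← ((summable_nat_add_iff (f := fun n => d n x) k).1 (sm k x h)).sum_add_tsum_nat_add k, Finset.sum_range_sub fun n => (s n).2.1 x]
    ring
  have tl k x h := tsum_of_norm_bounded (hasSum_geometric_two' (c / 8)) (db k x h)
  have df n x h := ((hs n).1.1 0).d x h
  obtain ⟨μ, m1, m2, m3, m4⟩ := rep' (isClosed_iInter fun n => (hs n).1.2.1.isClosed) (κ := 1 - δ)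
    fun h dh a a0 p q => by
      have P : Pos h := ⟨dh, fun x => mp one_pos dh p⟩
      refine a0.eq_or_lt.elim (fun e => by simpa [← e] using P.2 0 (by simp)) fun a0 => ?_
      have cl : IsClosed (sphere (0 : E) 1 ∩ (fun x => (h x).re) ⁻¹' Iic (a * (1 - δ / 4))) := ContinuousOn.preimage_isClosed_of_isClosed
        (continuous_re.comp_continuousOn (dh.2.mono (closure_ball (0 : E) one_ne_zero ▸ sphere_subset_closedBall)))
          isClosed_sphere isClosed_Iic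
      obtain ⟨n, hn⟩ := ((isCompact_sphere (0 : E) 1).of_isClosed_subset cl inter_subset_left).elim_directed_family_closed
        (fun n => (s n).2.2.1) (fun n => (hs n).1.2.1.isClosed) (eq_empty_of_forall_notMem fun x ⟨u, v⟩ => by
          nlinarith [q x v (by simpa using u.1), show (h x).re ≤ a * (1 - δ / 4) from u.2])
            (antitone_nat_of_succ_le fun n => (hs n).2.1).directed_ge
      have S := (hs n).1.1 0
      obtain ⟨t, t1, k⟩ := S.u
      refine le_trans ?_ (k h P (a * (1 - δ / 4)) (a * (1 - δ / 4)) (by nlinarith) le_rfl (by simp [Lo]) fun D u μ v => ?_)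
      · have := pow_pos (show (0 : ℝ) < 1 / 2 by norm_num) n
        have w : 1 - δ / 2 ≤ 1 - δ / 2 + δ / 4 * (1 / 2) ^ n := by nlinarith
        have w' : (1 - δ / 2) * (a * (1 - δ / 4)) ≤ (1 - δ / 2 + δ / 4 * (1 / 2) ^ n) * (a * (1 - δ / 4)) :=
          mul_le_mul_of_nonneg_right w (by nlinarith)
        simp only [sub_self, mul_zero, sub_zero]
        nlinarith [mul_pos δ0 a0, mul_pos δ0 (mul_pos δ0 a0)]
      have u : D ∈ (s n).1 ∪ ∅ := by simpa
      refine mp (H := fun μ => h (pt D μ)) one_pos ⟨dpt P (S.v D u), dh.2.comp (by unfold pt; fun_prop) fun μ k => ?_⟩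
        (fun μ k => not_lt.1 fun w => eq_empty_iff_forall_notMem.1 hn (pt D μ)
          ⟨⟨by simpa using ((pt1 (S.v D u)).2 k).1, w.le⟩, subset_of_mem_nhdsSet (S.o D u) ((pt1 (S.v D u)).2 k)⟩)
            (v.trans t1.le)
      rw [closure_ball _ one_ne_zero, mem_closedBall_zero_iff] at k ⊢
      exact k.eq_or_lt.elim (fun e => ((pt1 (S.v D u)).2 e).1.le) fun e => ((pt1 (S.v D u)).1.1 e).le
  refine ⟨fun x => (s 0).2.1 x + ∑' n, d n x, _, μ, fun x h => DifferentiableAt.differentiableWithinAt ?_,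
    fun x h => ?_, isClosed_iInter fun n => (hs n).1.2.1.isClosed, ?_, m1, m2, m3, m4⟩
  · obtain ⟨k, hk⟩ := eR (mem_ball_zero_iff.1 h)
    obtain ⟨δ, δ0, hδ⟩ : ∃ δ > 0, ‖x‖ + δ + δ = (s k).2.2.2 := ⟨_, half_pos (sub_pos.2 hk), by ring⟩
    have n {y z : E} (a : y ∈ ball x δ) (b : z ∈ ball y δ) : ‖z‖ ≤ (s k).2.2.2 := by
      linarith [norm_sub_norm_le y x, norm_sub_norm_le z y, mem_ball_iff_norm.1 a, mem_ball_iff_norm.1 b]
    have dd j y (a : ‖y‖ ≤ (s k).2.2.2) : DifferentiableAt ℂ (d j) y :=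
      (df _ y (a.trans (hs k).1.2.2.le)).1.sub (df _ y (a.trans (hs k).1.2.2.le)).1
    have x0 := mem_ball_self (x := x) δ0
    exact ((df k x (mem_ball_zero_iff.1 h).le).1.add (hasFDerivAt_tsum_of_isPreconnected
      (((summable_geometric_two' (c / 8)).mul_left 2).div_const δ) isOpen_ball (convex_ball x δ).isPreconnected
        (fun j y a => (dd (j + k) y (n a (mem_ball_self δ0))).hasFDerivAt) (fun j y a =>
          norm_fderiv_le_div_of_mapsTo_ball (fun z b => (dd _ z (n a b)).differentiableWithinAt) (fun z b =>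
            (dist_le_norm_add_norm _ _).trans (by linarith [db k z (n a b) j, db k y (n a (mem_ball_self δ0)) j])) δ0)
              x0 (sm k x hk.le) x0).differentiableAt).congr_of_eventuallyEq
                (mem_of_superset (ball_mem_nhds x δ0) fun y a => e k y (n a (mem_ball_self δ0)))
  · obtain ⟨k, hk⟩ := eR (mem_ball_zero_iff.1 h)
    change ‖(s 0).2.1 x + ∑' n, d n x‖ ≤ _
    rw [e k x hk.le]
    refine (norm_add_le _ _).trans ?_
    nlinarith [tl k x hk.le, (df k x (mem_ball_zero_iff.1 h).le).2, pow_pos (show (0 : ℝ) < 1 / 2 by norm_num) k]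
  · intro x v u R R1
    obtain ⟨n, a, b⟩ := ((l1.eventually_const_lt R1).and (l1.eventually_const_lt one_pos)).exists
    obtain ⟨⟨r, p, q⟩, r', p', q'⟩ := (hs n).2.2.2.2.2 x (mem_iInter.1 v _) u
    have k {r : ℝ} (p : r ∈ Icc (1 - (1 / 2) ^ n) (s (n + 1)).2.2.2) : r ∈ Ioo R 1 ∧
        ‖((s 0).2.1 ((r : ℂ) • x) + ∑' n, d n ((r : ℂ) • x)) - (s (n + 1)).2.1 ((r : ℂ) • x)‖ ≤ c / 8 := by
      have w : ‖(r : ℂ) • x‖ ≤ (s (n + 1)).2.2.2 := by simpa [norm_smul, u, abs_of_pos (b.trans_le p.1)] using p.2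
      refine ⟨⟨a.trans_le p.1, p.2.trans_lt (hs _).1.2.2⟩, ?_⟩
      rw [e _ _ w, add_sub_cancel_left]
      exact tl _ _ w
    refine ⟨r, (k p).1, r', (k p').1, ?_⟩
    have k1 := (k p).2
    have k2 := (k p').2
    have k3 := norm_sub_norm_le ((s (n + 1)).2.1 ((r : ℂ) • x)) ((s 0).2.1 ((r : ℂ) • x) + ∑' n, d n ((r : ℂ) • x))
    have k4 := norm_sub_norm_le ((s 0).2.1 ((r' : ℂ) • x) + ∑' n, d n ((r' : ℂ) • x)) ((s (n + 1)).2.1 ((r' : ℂ) • x))
    rw [norm_sub_rev] at k3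
    linarith

end Pool.Agent.KS6_84.RLim
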